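import Mathlib

/-!
The `P`-part of a finite group with a central subgroup of order divisible by the prime `P`, when `P ^ 2` does not
divide the order (helper87).
-/

set_option autoImplicit false

namespace Pool.Agent.Lib.MP_688fd0_co.SQ2.H87

open Subgroup

/-- An element of order dividing `P` and of order prime to `P` is trivial. -/
theorem eq_one_of_coprime {G : Type*} [Group G] {P m : ℕ} (hc : m.Coprime P) {g : G} (h1 : g ^ m = 1)
    (h2 : g ^ P = 1) : g = 1 := by
  have h : orderOf g ∣ 1 := by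
    rw [← hc]
    exact Nat.dvd_gcd (orderOf_dvd_of_pow_eq_one h1) (orderOf_dvd_of_pow_eq_one h2)
  exact orderOf_eq_one_iff.1 (Nat.dvd_one.1 h)

/-- The `P`-part. -/
theorem exists_part {Q : Type*} [Group Q] [Finite Q] {P : ℕ} (hP : P.Prime) (hZ : P ∣ Nat.card (center Q))
    (hQ : ¬ P ^ 2 ∣ Nat.card Q) :
    ∃ h : Q →* Multiplicative (ZMod P), Function.Surjective h ∧
      ∀ D : Subgroup Q, (Nat.card D).Coprime P → D ≤ h.ker := by
  have : Fact P.Prime := ⟨hP⟩
  obtain ⟨m, hm⟩ := hZ
  set i := (center Q).index with hi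
  have hcard : Nat.card Q = P * (m * i) := by
    rw [← Subgroup.card_mul_index (center Q), hm, hi, mul_assoc]
  have hPm : ¬ P ∣ m * i := by
    rintro ⟨c, hc⟩
    exact hQ ⟨c, by rw [hcard, hc]; ring⟩
  -- an element of order `P` in the centre
  obtain ⟨z, hz⟩ := exists_prime_orderOf_dvd_card' (G := center Q) P ⟨m, hm⟩
  -- the endomorphism `g ↦ g ^ (m * i)`
  let f : Q →* center Q :=
    { toFun := fun g => MonoidHom.transferCenterPow Q g ^ m
      map_one' := by rw [map_one, one_pow]
      map_mul' := fun a b => by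
        rw [map_mul]
        refine Commute.mul_pow ?_ m
        exact Subtype.ext ((mem_center_iff.1 (MonoidHom.transferCenterPow Q b).2 _)) }
  have hf : ∀ g, ((f g : center Q) : Q) = g ^ (m * i) := by
    intro g
    show (((MonoidHom.transferCenterPow Q g) ^ m : center Q) : Q) = _
    rw [Subgroup.coe_pow, MonoidHom.transferCenterPow_apply, ← pow_mul, mul_comm]
  have hfP : ∀ g, (f g) ^ P = 1 := by
    intro g
    apply Subtype.ext
    rw [Subgroup.coe_pow, hf, ← pow_mul, mul_comm (m * i) P, ← hcard, pow_card_eq_one', Subgroup.coe_one]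
  -- the range has order `P`
  have hpg : IsPGroup P f.range := by
    rintro ⟨y, g, rfl⟩
    exact ⟨1, Subtype.ext (by rw [pow_one]; exact hfP g)⟩
  obtain ⟨k, hk⟩ := IsPGroup.iff_card.1 hpg
  have hk1 : k ≤ 1 := by
    by_contra hk2
    refine hQ ((pow_dvd_pow P (by omega : 2 ≤ k)).trans ?_)
    rw [← hk]
    exact (Subgroup.card_subgroup_dvd_card f.range).trans (Subgroup.card_subgroup_dvd_card (center Q))
  have hfz : f (z : Q) ≠ 1 := by
    intro h
    have h1 : (z : Q) ^ (m * i) = 1 := by rw [← hf, h, Subgroup.coe_one]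
    have h2 : orderOf (z : Q) = P := by rw [Subgroup.orderOf_coe, hz]
    exact hPm (h2 ▸ orderOf_dvd_of_pow_eq_one h1)
  have hk0 : k ≠ 0 := by
    rintro rfl
    rw [pow_zero] at hk
    have h1 := Subgroup.card_eq_one.1 hk
    exact hfz (Subgroup.mem_bot.1 (h1 ▸ (⟨_, rfl⟩ : f (z : Q) ∈ f.range)))
  obtain rfl : k = 1 := by omega
  rw [pow_one] at hk
  have hk' : Nat.card (Multiplicative (ZMod P)) = P := by
    rw [Nat.card_congr Multiplicative.toAdd, Nat.card_zmod]
  let e : f.range ≃* Multiplicative (ZMod P) := mulEquivOfPrimeCardEq (p := P) hk hk'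
  refine ⟨e.toMonoidHom.comp f.rangeRestrict, e.surjective.comp f.rangeRestrict_surjective, ?_⟩
  intro D hD g hg
  rw [MonoidHom.mem_ker]
  show e (f.rangeRestrict g) = 1
  have h1 : f g = 1 := by
    refine eq_one_of_coprime hD ?_ (hfP g)
    rw [← map_pow]
    have h2 : g ^ Nat.card D = 1 := by
      have h3 := pow_card_eq_one' (x := (⟨g, hg⟩ : D))
      exact congrArg Subtype.val h3
    rw [h2, map_one]
  have h2 : f.rangeRestrict g = 1 := Subtype.ext h1
  rw [h2, map_one]

end Pool.Agent.Lib.MP_688fd0_co.SQ2.H87
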