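import Pool.Agent.Lib.MP_688fd0_co.SQ2.H87.Scale
import Pool.Agent.Lib.MP_688fd0_co.SQ2.H87.Part

/-!
SCALE, in the form used for the groups of nice order: the long label `a` and the scale `c = s i`, `W = s (i + 1)`,
such that no word of length at most `t` lies in `D A^j` for `c < |j| ≤ W` (helper87).
-/

set_option autoImplicit false

namespace Pool.Agent.Lib.MP_688fd0_co.SQ2.H87

open Subgroup

universe u v

/-- No word of length at most `t` in the labels lies in `D A^j` for `c < |j| ≤ W`. -/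
def Sep {Q : Type u} [Group Q] {L : Type v} (q : L → Q) (D : Subgroup Q) (a : L) (t c W : ℕ) : Prop :=
  ∀ l : List L, l.length ≤ t → ∀ j : ℤ, (c : ℤ) < |j| → |j| ≤ W → ∀ d ∈ D, wd q l ≠ d * q a ^ j

/-- SCALE. -/
theorem scale {Q : Type u} [Group Q] [Finite Q] {L : Type v} [Fintype L] (q : L → Q) {P : ℕ} (hP : P.Prime)
    (hZ : P ∣ Nat.card (center Q)) (hQ : ¬ P ^ 2 ∣ Nat.card Q) (hgen : closure (Set.range q) = ⊤)
    (t : ℕ) (s : ℕ → ℕ) (hs : Monotone s) (r : ℕ) (hr : (Fintype.card L + 1) ^ t ≤ r)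
    (hW : s (r + 1) ^ Fintype.card L + 1 < P) (hW2 : 2 * s (r + 1) < P) :
    ∃ a : L, P ∣ orderOf (q a) ∧ ∃ i ≤ r, ∀ D : Subgroup Q, (Nat.card D).Coprime P →
      Sep q D a 1 1 (s (r + 1)) ∧ Sep q D a t (s i) (s (i + 1)) := by
  have hPf : Fact P.Prime := ⟨hP⟩
  obtain ⟨h, hsurj, hker⟩ := exists_part hP hZ hQ
  have hP1 := hP.one_lt
  have hL : ∃ l, h (q l) ≠ 1 := by
    by_contra hcon
    push Not at hcon
    have h1 : closure (Set.range q) ≤ h.ker := by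
      rw [closure_le]
      rintro _ ⟨l, rfl⟩
      exact hcon l
    rw [hgen] at h1
    obtain ⟨g, hg⟩ := hsurj (Multiplicative.ofAdd 1)
    have h2 : h g = 1 := h1 (mem_top g)
    rw [hg] at h2
    have h3 : (1 : ZMod P) = 0 := Multiplicative.ofAdd.injective h2
    exact one_ne_zero h3
  obtain ⟨a, ha, hb, i, hi, hg⟩ := exists_scale q hP h hL t s hs r hr hW hW2
  have hord : P ∣ orderOf (q a) := by
    have h1 : orderOf (h (q a)) ∣ P := by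
      refine orderOf_dvd_of_pow_eq_one ?_
      apply Multiplicative.toAdd.injective
      rw [toAdd_pow, toAdd_one, nsmul_eq_mul, CharP.cast_eq_zero, zero_mul]
    rcases (Nat.dvd_prime hP).1 h1 with h2 | h2
    · exact absurd (orderOf_eq_one_iff.1 h2) ha
    · rw [← h2]
      exact orderOf_map_dvd h (q a)
  have hdrop : ∀ D : Subgroup Q, (Nat.card D).Coprime P → ∀ d ∈ D, ∀ (g : Q) (j : ℤ),
      g = d * q a ^ j → h g = h (q a) ^ j := by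
    rintro D hD d hd g j rfl
    rw [map_mul, map_zpow, show h d = 1 from hker D hD hd, one_mul]
  refine ⟨a, hord, i, hi, fun D hD => ⟨?_, ?_⟩⟩
  · intro l hl j hj1 hj2 d hd he
    have h1 := hdrop D hD d hd _ _ he
    have hj1' : 2 ≤ |j| := by push_cast at hj1; omega
    rcases l with _ | ⟨b, l⟩
    · -- the empty word
      have h2 : h (q a) ^ j = 1 := by
        rw [← h1]
        exact map_one h
      have h3 : ((j : ℤ) : ZMod P) = ((0 : ℤ) : ZMod P) := by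
        have h4 : (j : ZMod P) * (h (q a)).toAdd = 0 := by
          rw [← zsmul_eq_mul, ← toAdd_zpow, h2, toAdd_one]
        have h5 : (h (q a)).toAdd ≠ 0 := fun e => ha (Multiplicative.toAdd.injective e)
        rw [(mul_eq_zero.1 h4).resolve_right h5, Int.cast_zero]
      have h4 := eq_of_small h3 (by rw [abs_zero]; omega)
      rw [h4, abs_zero] at hj1'
      omega
    · have hl' : l = [] := by
        rcases l with _ | ⟨c, l⟩
        · rfl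
        · simp at hl
      subst hl'
      refine hb b j hj1' hj2 ?_
      rw [← h1]
      simp [wd]
  · intro l hl j hj1 hj2 d hd he
    exact hg l hl j hj1 hj2 (hdrop D hD d hd _ _ he)

/-- The growth of the scales. -/
theorem scale_seq {H : ℕ} (hH : 1 ≤ H) {s : ℕ → ℕ} (h0 : s 0 ≤ H) (h1 : ∀ i, s (i + 1) ≤ H * (s i + 1)) :
    ∀ i, s i ≤ (2 * H) ^ (i + 1) := by
  intro i
  induction i with
  | zero => rw [zero_add, pow_one]; omega
  | succ i ih =>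
    refine (h1 i).trans ?_
    have h2 : 1 ≤ (2 * H) ^ (i + 1) := Nat.one_le_pow _ _ (by omega)
    calc H * (s i + 1) ≤ H * ((2 * H) ^ (i + 1) + (2 * H) ^ (i + 1)) := Nat.mul_le_mul_left _ (by omega)
      _ = (2 * H) ^ (i + 1 + 1) := by ring

/-- The size of `P`. -/
theorem scale_pow (c₁ t : ℕ) : ∃ c₀ : ℕ, ∀ x N H P : ℕ, 2 ≤ x → N ≤ x ^ 2 → H ≤ 2 ^ (x ^ c₁) → 2 ^ (x ^ c₀) ≤ P →
    ((2 * H) ^ ((N + 1) ^ t + 2)) ^ N + 1 < P ∧ 2 * (2 * H) ^ ((N + 1) ^ t + 2) < P := by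
  refine ⟨c₁ + 3 * t + 6, fun x N H P hx hN hH hP => ?_⟩
  have hx1 : 1 ≤ x := by omega
  have hp : ∀ m, 1 ≤ x ^ m := fun m => Nat.one_le_pow _ _ hx1
  have hdbl : ∀ m, 2 * x ^ m ≤ x ^ (m + 1) := fun m => by
    rw [pow_succ, mul_comm]; exact Nat.mul_le_mul_left _ hx
  have e1 : N + 1 ≤ x ^ 3 := by
    have h1 := hdbl 2
    have h2 := hp 2
    rw [show 2 + 1 = 3 by rfl] at h1
    omega
  have e2 : (N + 1) ^ t + 2 ≤ x ^ (3 * t + 2) := by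
    have h1 : (N + 1) ^ t ≤ x ^ (3 * t) := by
      rw [pow_mul]; exact Nat.pow_le_pow_left e1 t
    have h2 := hdbl (3 * t)
    have h3 := hdbl (3 * t + 1)
    have h4 := hp (3 * t)
    rw [show 3 * t + 1 + 1 = 3 * t + 2 by ring] at h3
    omega
  have e3 : 2 * H ≤ 2 ^ (x ^ (c₁ + 1)) := by
    have h1 : x ^ c₁ + 1 ≤ x ^ (c₁ + 1) := by have := hdbl c₁; have := hp c₁; omega
    calc 2 * H ≤ 2 * 2 ^ (x ^ c₁) := Nat.mul_le_mul_left _ hH
      _ = 2 ^ (x ^ c₁ + 1) := by ring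
      _ ≤ _ := Nat.pow_le_pow_right (by norm_num) h1
  have e4 : (2 * H) ^ ((N + 1) ^ t + 2) ≤ 2 ^ (x ^ (c₁ + 3 * t + 3)) := by
    calc (2 * H) ^ ((N + 1) ^ t + 2) ≤ (2 ^ (x ^ (c₁ + 1))) ^ ((N + 1) ^ t + 2) := Nat.pow_le_pow_left e3 _
      _ ≤ (2 ^ (x ^ (c₁ + 1))) ^ (x ^ (3 * t + 2)) := Nat.pow_le_pow_right (by positivity) e2
      _ = 2 ^ (x ^ (c₁ + 3 * t + 3)) := by rw [← pow_mul, ← pow_add]; congr 2; ring
  have e5 : ((2 * H) ^ ((N + 1) ^ t + 2)) ^ N ≤ 2 ^ (x ^ (c₁ + 3 * t + 5)) := by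
    calc ((2 * H) ^ ((N + 1) ^ t + 2)) ^ N ≤ (2 ^ (x ^ (c₁ + 3 * t + 3))) ^ N := Nat.pow_le_pow_left e4 _
      _ ≤ (2 ^ (x ^ (c₁ + 3 * t + 3))) ^ (x ^ 2) := Nat.pow_le_pow_right (by positivity) hN
      _ = 2 ^ (x ^ (c₁ + 3 * t + 5)) := by rw [← pow_mul, ← pow_add]
  have e6 : x ^ (c₁ + 3 * t + 5) + 1 ≤ x ^ (c₁ + 3 * t + 6) := by
    have h1 := hdbl (c₁ + 3 * t + 5)
    have h2 := hp (c₁ + 3 * t + 5)
    rw [show c₁ + 3 * t + 5 + 1 = c₁ + 3 * t + 6 by ring] at h1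
    omega
  have e7 : 2 * 2 ^ (x ^ (c₁ + 3 * t + 5)) ≤ P := by
    refine le_trans ?_ hP
    calc 2 * 2 ^ (x ^ (c₁ + 3 * t + 5)) = 2 ^ (x ^ (c₁ + 3 * t + 5) + 1) := by ring
      _ ≤ _ := Nat.pow_le_pow_right (by norm_num) e6
  have e8 : 2 ^ 1 ≤ 2 ^ (x ^ (c₁ + 3 * t + 5)) := Nat.pow_le_pow_right (by norm_num) (hp _)
  have e9 : 2 ^ (x ^ (c₁ + 3 * t + 3)) < 2 ^ (x ^ (c₁ + 3 * t + 5)) := by
    refine Nat.pow_lt_pow_right (by norm_num) ?_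
    have h1 := hdbl (c₁ + 3 * t + 3); have h2 := hdbl (c₁ + 3 * t + 4); have h3 := hp (c₁ + 3 * t + 3)
    rw [show c₁ + 3 * t + 3 + 1 = c₁ + 3 * t + 4 by ring] at h1
    rw [show c₁ + 3 * t + 4 + 1 = c₁ + 3 * t + 5 by ring] at h2
    omega
  constructor
  · rw [pow_one] at e8
    have h9 : 2 ^ (x ^ (c₁ + 3 * t + 5)) + 1 < 2 * 2 ^ (x ^ (c₁ + 3 * t + 5)) ∨
        2 ^ (x ^ (c₁ + 3 * t + 5)) + 1 ≤ 2 * 2 ^ (x ^ (c₁ + 3 * t + 5)) - 1 := by omega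
    omega
  · omega

/-- SCALE for a large `P`: the scales grow by factors at most `H ≤ 2 ^ (x ^ c₁)`. -/
theorem scale_of_pow (c₁ t : ℕ) : ∃ c₀ : ℕ, ∀ (Q : Type u) [Group Q] [Finite Q] (L : Type v) [Fintype L] (q : L → Q)
    (P x H : ℕ) (s : ℕ → ℕ), P.Prime → P ∣ Nat.card (center Q) → ¬ P ^ 2 ∣ Nat.card Q →
    closure (Set.range q) = ⊤ → 2 ≤ x → Fintype.card L ≤ x ^ 2 → 1 ≤ H → H ≤ 2 ^ (x ^ c₁) → 2 ^ (x ^ c₀) ≤ P →
    Monotone s → s 0 ≤ H → (∀ i, s (i + 1) ≤ H * (s i + 1)) →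
    ∃ a : L, P ∣ orderOf (q a) ∧ ∃ i ≤ (Fintype.card L + 1) ^ t, ∀ D : Subgroup Q, (Nat.card D).Coprime P →
      Sep q D a 1 1 (s ((Fintype.card L + 1) ^ t + 1)) ∧ Sep q D a t (s i) (s (i + 1)) := by
  obtain ⟨c₀, hc⟩ := scale_pow c₁ t
  refine ⟨c₀, ?_⟩
  intro Q _ _ L _ q P x H s hP hZ hQ hgen hx hN hH1 hH hPx hs h0 h1
  obtain ⟨b1, b2⟩ := hc x (Fintype.card L) H P hx hN hH hPx
  have hsr := scale_seq hH1 h0 h1 ((Fintype.card L + 1) ^ t + 1)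
  rw [show (Fintype.card L + 1) ^ t + 1 + 1 = (Fintype.card L + 1) ^ t + 2 by ring] at hsr
  refine scale q hP hZ hQ hgen t s hs _ le_rfl ?_ ?_
  · exact lt_of_le_of_lt (Nat.succ_le_succ (Nat.pow_le_pow_left hsr _)) b1
  · exact lt_of_le_of_lt (Nat.mul_le_mul_left _ hsr) b2

end Pool.Agent.Lib.MP_688fd0_co.SQ2.H87
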