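import Mathlib

/-!
SCALE: the choice of the long label (a sink) and of the scale (helper87).

`h` is the `P`-part of the group elements. A label `a` with nontrivial `P`-part is chosen such that no label is the
`j`-th power of `a` in the `P`-part for `2 ≤ |j| ≤ W`; then a scale `s i` such that no word of length at most `t` in the
labels is the `j`-th power of `a` in the `P`-part for `s i < |j| ≤ s (i + 1)`.
-/

set_option autoImplicit false

namespace Pool.Agent.Lib.MP_688fd0_co.SQ2.H87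

open Finset

/-- Integers that agree modulo `P` and are small are equal. -/
theorem eq_of_small {P : ℕ} {i j : ℤ} (h : (i : ZMod P) = j) (hs : |i| + |j| < P) : i = j := by
  have h1 : (P : ℤ) ∣ i - j := by
    rw [← ZMod.intCast_zmod_eq_zero_iff_dvd]
    push_cast
    rw [h, sub_self]
  have h2 : i - j = 0 := by
    refine Int.eq_zero_of_abs_lt_dvd h1 ?_
    exact lt_of_le_of_lt (abs_sub _ _) hs
  omega

/-- SINK: elements `n l` of `ZMod P`, not all `0`. Some `n a ≠ 0` has no `n b = j * n a` with `2 ≤ |j| ≤ W`. -/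
theorem exists_sink {L : Type*} [Fintype L] {P : ℕ} (hP : P.Prime) (n : L → ZMod P) (hn : ∃ l, n l ≠ 0) (W : ℕ)
    (hW : W ^ Fintype.card L + 1 < P) :
    ∃ a, n a ≠ 0 ∧ ∀ b, ∀ j : ℤ, 2 ≤ |j| → |j| ≤ W → n b ≠ j * n a := by
  classical
  have : Fact P.Prime := ⟨hP⟩
  by_contra hcon
  push Not at hcon
  obtain ⟨l0, hl0⟩ := hn
  have hpow : ∀ m, m ≤ Fintype.card L → W ^ m + 1 < P := by
    intro m hm
    rcases Nat.eq_zero_or_pos W with rfl | hW0
    · rcases Nat.eq_zero_or_pos m with rfl | hm0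
      · have : Fintype.card L ≠ 0 := by
          have := Fintype.card_pos_iff.2 ⟨l0⟩
          omega
        obtain ⟨a, ha⟩ := hcon l0 hl0
        obtain ⟨j, hj1, hj2, -⟩ := ha
        push_cast at hj2
        omega
      · rw [zero_pow hm0.ne']
        have := hP.one_lt
        omega
    · exact lt_of_le_of_lt (Nat.succ_le_succ (Nat.pow_le_pow_right hW0 hm)) hW
  choose! nx j hj1 hj2 hj using hcon
  -- the orbit
  let o : ℕ → L := fun t => nx^[t] l0
  have ho : ∀ t, n (o t) ≠ 0 := by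
    intro t
    induction t with
    | zero => exact hl0
    | succ t ih =>
      have e : o (t + 1) = nx (o t) := Function.iterate_succ_apply' nx t l0
      rw [e, hj (o t) ih]
      refine mul_ne_zero (fun h0 => ?_) ih
      have h1 : ((j (o t) : ℤ) : ZMod P) = ((0 : ℤ) : ZMod P) := by rw [h0]; simp
      have h2 := eq_of_small h1 (by
        have h3 := hj2 (o t) ih
        have h4 := hpow 1 (Fintype.card_pos_iff.2 ⟨l0⟩)
        rw [pow_one] at h4
        rw [abs_zero]
        omega)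
      have h3 := hj1 (o t) ih
      rw [h2, abs_zero] at h3
      omega
  -- products of the multipliers along the orbit
  have hprod : ∀ t m, ∃ J : ℤ, n (o (t + m)) = J * n (o t) ∧ 2 ^ m ≤ |J| ∧ |J| ≤ W ^ m := by
    intro t m
    induction m with
    | zero => exact ⟨1, by simp, by simp, by simp⟩
    | succ m ih =>
      obtain ⟨J, h1, h2, h3⟩ := ih
      refine ⟨j (o (t + m)) * J, ?_, ?_, ?_⟩
      · have e : o (t + (m + 1)) = nx (o (t + m)) := Function.iterate_succ_apply' nx (t + m) l0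
        rw [e, hj (o (t + m)) (ho _), h1]
        push_cast
        ring
      · rw [abs_mul, pow_succ, mul_comm]
        exact mul_le_mul (hj1 _ (ho _)) h2 (by positivity) (abs_nonneg _)
      · rw [abs_mul, pow_succ, mul_comm]
        exact mul_le_mul h3 (hj2 _ (ho _)) (abs_nonneg _) (by positivity)
  -- a repetition
  obtain ⟨t1, t2, hlt, heq, hm⟩ : ∃ t1 t2, t1 < t2 ∧ o t1 = o t2 ∧ t2 ≤ Fintype.card L := by
    obtain ⟨x, y, hxy, hxy'⟩ := Fintype.exists_ne_map_eq_of_card_lt
      (fun t : Fin (Fintype.card L + 1) => o t) (by simp)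
    rcases lt_or_gt_of_ne hxy with h | h
    · exact ⟨x, y, h, hxy', by have := y.2; omega⟩
    · exact ⟨y, x, h, hxy'.symm, by have := x.2; omega⟩
  obtain ⟨J, h1, h2, h3⟩ := hprod t1 (t2 - t1)
  rw [show t1 + (t2 - t1) = t2 by omega, ← heq] at h1
  have h4 : ((J : ℤ) : ZMod P) = ((1 : ℤ) : ZMod P) := by
    have h5 : ((J : ZMod P) - 1) * n (o t1) = 0 := by rw [sub_mul, one_mul, ← h1, sub_self]
    have h6 := (mul_eq_zero.1 h5).resolve_right (ho t1)
    rw [sub_eq_zero] at h6
    rw [h6]; simp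
  have h5 := eq_of_small h4 (by
    have h6 := hpow (t2 - t1) (by omega)
    have h7 : ((W ^ (t2 - t1) + 1 : ℕ) : ℤ) < P := by exact_mod_cast h6
    push_cast at h7
    rw [abs_one]
    omega)
  rw [h5, abs_one] at h2
  have h6 : (2 : ℤ) ^ 1 ≤ 2 ^ (t2 - t1) := pow_le_pow_right₀ (by norm_num) (by omega)
  omega

/-- PIGEONHOLE: `r` residues `v g`, `x ≠ 0`; one of the `r + 1` intervals `(s i, s (i + 1)]` contains no `|j|` with
`v g = j * x`. -/
theorem exists_gap {G : Type*} [Fintype G] {P : ℕ} (hP : P.Prime) (v : G → ZMod P) {x : ZMod P} (hx : x ≠ 0)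
    (s : ℕ → ℕ) (hs : Monotone s) (r : ℕ) (hr : Fintype.card G ≤ r) (hsP : 2 * s (r + 1) < P) :
    ∃ i ≤ r, ∀ g, ∀ j : ℤ, (s i : ℤ) < |j| → |j| ≤ s (i + 1) → v g ≠ j * x := by
  classical
  have : Fact P.Prime := ⟨hP⟩
  by_contra hcon
  push Not at hcon
  have hne : Nonempty G := ⟨(hcon 0 (Nat.zero_le _)).choose⟩
  choose! g j h1 h2 h3 using hcon
  -- two intervals with the same residue
  obtain ⟨i1, i2, hi1, hi2, hlt, heq⟩ : ∃ i1 i2, i1 ≤ r ∧ i2 ≤ r ∧ i1 < i2 ∧ g i1 = g i2 := by
    obtain ⟨x, y, hxy, hxy'⟩ := Fintype.exists_ne_map_eq_of_card_lt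
      (fun t : Fin (r + 1) => g t) (by rw [Fintype.card_fin]; omega)
    rcases lt_or_gt_of_ne hxy with h | h
    · exact ⟨x, y, by have := x.2; omega, by have := y.2; omega, h, hxy'⟩
    · exact ⟨y, x, by have := y.2; omega, by have := x.2; omega, h, hxy'.symm⟩
  have e1 := h3 i1 hi1
  have e2 := h3 i2 hi2
  rw [heq, e2] at e1
  have e3 := mul_right_cancel₀ hx e1
  have b1 := h2 i1 hi1
  have b2 := h2 i2 hi2
  have m1 : s (i1 + 1) ≤ s (r + 1) := hs (by omega)
  have m2 : s (i2 + 1) ≤ s (r + 1) := hs (by omega)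
  have e4 := eq_of_small e3 (by omega)
  have b3 := h1 i2 hi2
  have m3 : s (i1 + 1) ≤ s i2 := hs (by omega)
  rw [e4] at b3
  omega

/-- The product of a word in the labels. -/
def wd {Q L : Type*} [Monoid Q] (q : L → Q) (l : List L) : Q := (l.map q).prod

/-- SCALE. -/
theorem exists_scale {Q : Type*} [Group Q] {L : Type*} [Fintype L] (q : L → Q) {P : ℕ} (hP : P.Prime)
    (h : Q →* Multiplicative (ZMod P)) (hL : ∃ l, h (q l) ≠ 1) (t : ℕ) (s : ℕ → ℕ) (hs : Monotone s) (r : ℕ)
    (hr : (Fintype.card L + 1) ^ t ≤ r) (hW : s (r + 1) ^ Fintype.card L + 1 < P) (hW2 : 2 * s (r + 1) < P) :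
    ∃ a : L, h (q a) ≠ 1 ∧
      (∀ b : L, ∀ j : ℤ, 2 ≤ |j| → |j| ≤ s (r + 1) → h (q b) ≠ h (q a) ^ j) ∧
      ∃ i ≤ r, ∀ l : List L, l.length ≤ t → ∀ j : ℤ, (s i : ℤ) < |j| → |j| ≤ s (i + 1) →
        h (wd q l) ≠ h (q a) ^ j := by
  classical
  have : Fact P.Prime := ⟨hP⟩
  have key : ∀ (y z : Multiplicative (ZMod P)) (j : ℤ), y = z ^ j ↔ y.toAdd = j * z.toAdd := by
    intro y z j
    constructor
    · rintro rfl
      rw [toAdd_zpow, zsmul_eq_mul]
    · intro e
      apply Multiplicative.toAdd.injective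
      rw [e, toAdd_zpow, zsmul_eq_mul]
  have key0 : ∀ y : Multiplicative (ZMod P), y ≠ 1 ↔ y.toAdd ≠ 0 := by
    intro y
    exact not_congr ⟨fun e => by rw [e]; rfl, fun e => Multiplicative.toAdd.injective e⟩
  obtain ⟨a, ha, hb⟩ := exists_sink hP (fun l => (h (q l)).toAdd) (by
    obtain ⟨l, hl⟩ := hL
    exact ⟨l, (key0 _).1 hl⟩) (s (r + 1)) hW
  refine ⟨a, (key0 _).2 ha, fun b j h1 h2 h3 => hb b j h1 h2 ((key _ _ _).1 h3), ?_⟩
  -- the words
  let w : (Fin t → Option L) → Q := fun f => (List.ofFn fun i => (f i).elim 1 q).prod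
  obtain ⟨i, hi, hg⟩ := exists_gap hP (fun f => (h (w f)).toAdd) ha s hs r (by
    rw [Fintype.card_fun, Fintype.card_fin, Fintype.card_option]
    exact hr) hW2
  refine ⟨i, hi, fun l hl j h1 h2 h3 => hg (fun i => l[(i : ℕ)]?) j h1 h2 ?_⟩
  rw [← key]
  have e : w (fun i => l[(i : ℕ)]?) = wd q l := by
    show (List.ofFn fun i : Fin t => (l[(i : ℕ)]?).elim 1 q).prod = (l.map q).prod
    have e1 : (List.ofFn fun i : Fin t => (l[(i : ℕ)]?).elim 1 q) =
        l.map q ++ List.replicate (t - l.length) 1 := by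
      refine List.ext_getElem (by simp; omega) fun i hi1 hi2 => ?_
      rw [List.getElem_ofFn, List.getElem_append]
      split_ifs with hlt
      · rw [List.length_map] at hlt
        rw [List.getElem_map, List.getElem?_eq_getElem hlt]
        rfl
      · rw [List.length_map] at hlt
        rw [List.getElem?_eq_none (not_lt.1 hlt), List.getElem_replicate]
        rfl
    rw [e1, List.prod_append, List.prod_replicate, one_pow, mul_one]
  rw [e]
  exact h3

end Pool.Agent.Lib.MP_688fd0_co.SQ2.H87
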